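import Pool.Agent.Helper73.LB.Rep

/-!
Sheets on cylinders and on the sphere.
-/

set_option autoImplicit false

open MeasureTheory Set Real Module
open scoped ContDiff RealInnerProductSpace

namespace Pool.Agent.Helper19.LB

theorem rep_cyl {k : ℕ} (hk : 3 ≤ k) {r : ℝ} (hr : 0 < r) (hr1 : r < 1) {J : ℝ → ℝ}
    (hJ : Continuous J) (h0 : ∀ z, 0 ≤ J z) :
    Rep k (fun A _ => ∫ z in Ioo (-zz r) (zz r), J z * A (r, z)) := by
  have hk0 : (0 : ℝ) < k := by exact_mod_cast (by omega : 0 < k)
  have hint : ∀ {f : ℝ → ℝ}, Continuous f → IntegrableOn f (Ioo (-zz r) (zz r)) := by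
    intro f hf
    exact (hf.integrableOn_Icc).mono_set Ioo_subset_Icc_self
  refine (rep_c (k := k) (volume.restrict (Ioo (-zz r) (zz r))) (g := fun z => (r, z))
    (m := fun z => J z * r / k) ?_ ?_ ?_ ?_ ?_).congr ?_
  · fun_prop
  · exact hint (by fun_prop)
  · exact Filter.Eventually.of_forall fun z => by
      have := h0 z
      positivity
  · refine (ae_restrict_iff' measurableSet_Ioo).2 (Filter.Eventually.of_forall fun z hz => ⟨hr, ?_⟩)
    have h1 : z ^ 2 < zz r ^ 2 := sq_lt_sq' hz.1 hz.2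
    have h2 : zz r ^ 2 = 1 - r ^ 2 := by
      unfold zz
      exact Real.sq_sqrt (by nlinarith)
    simp only
    linarith
  · exact hint (f := fun z => J z * r / k / r) (by fun_prop)
  · intro A B hA hB
    refine integral_congr_ae (Filter.Eventually.of_forall fun z => ?_)
    simp only [Lc]
    field_simp

/-- the tangential component along the meridian -/
lemma hasDerivAt_tangential {A B : Pt → ℝ} (hA : ContDiff ℝ ∞ A) (hB : ContDiff ℝ ∞ B) (s : ℝ) :
    HasDerivAt (fun s => cos s * A (sin s, cos s) - sin s * B (sin s, cos s))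
      ((cos s) ^ 2 * dr A (sin s, cos s) + cos s * (-sin s) * (dz A (sin s, cos s) +
        dr B (sin s, cos s)) + (-sin s) ^ 2 * dz B (sin s, cos s) -
        (sin s * A (sin s, cos s) + cos s * B (sin s, cos s))) s := by
  have hX : HasDerivAt (fun s : ℝ => ((sin s, cos s) : Pt)) (cos s, -sin s) s :=
    (hasDerivAt_sin s).prodMk (hasDerivAt_cos s)
  have hd : ∀ {F : Pt → ℝ}, ContDiff ℝ ∞ F → HasDerivAt (fun s : ℝ => F (sin s, cos s))
      (cos s * dr F (sin s, cos s) + (-sin s) * dz F (sin s, cos s)) s := by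
    intro F hF
    have h1 : HasFDerivAt F (fderiv ℝ F (sin s, cos s)) (sin s, cos s) :=
      ((hF.differentiable (by simp)).differentiableAt).hasFDerivAt
    have h2 := h1.comp_hasDerivAt s hX
    have h3 : ((cos s, -sin s) : Pt) = cos s • ((1, 0) : Pt) + (-sin s) • ((0, 1) : Pt) := by
      ext <;> simp
    rw [h3, map_add, map_smul, map_smul] at h2
    exact h2
  have h := ((hasDerivAt_cos s).mul (hd hA)).sub ((hasDerivAt_sin s).mul (hd hB))
  refine h.congr_deriv ?_
  ring

theorem rep_sphere {k : ℕ} (hk : 3 ≤ k) {Q Q' : ℝ → ℝ} (hQ : ContinuousOn Q (Ici 0))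
    (hQ' : ContinuousOn Q' (Ici 0)) (hQ0 : ∀ ρ, 0 ≤ ρ → 0 ≤ Q ρ)
    (dQ : ∀ ρ, 0 < ρ → HasDerivAt Q (Q' ρ) ρ) {T : ℝ → ℝ}
    (hT : AEStronglyMeasurable T (volume.restrict (Ioo 0 π)))
    (hTb : ∀ s ∈ Ioo 0 π, |T s| ≤ Q' (sin s)) :
    Rep k (fun A B => ∫ s in Ioo 0 π,
      ((Q' (sin s) * sin s ^ k + k * Q (sin s) * sin s ^ (k - 1)) *
          (sin s * A (sin s, cos s) + cos s * B (sin s, cos s)) -
        sin s ^ (k - 1) * T s * A (sin s, cos s))) := by
  have hk0 : (0 : ℝ) < k := by exact_mod_cast (by omega : 0 < k)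
  have hsin : MapsTo sin (Icc 0 π) (Ici 0) := fun s hs => sin_nonneg_of_mem_Icc hs
  have hQs : ContinuousOn (fun s => Q (sin s)) (Icc 0 π) := hQ.comp continuous_sin.continuousOn hsin
  have hQs' : ContinuousOn (fun s => Q' (sin s)) (Icc 0 π) :=
    hQ'.comp continuous_sin.continuousOn hsin
  have hint : ∀ {f : ℝ → ℝ}, ContinuousOn f (Icc 0 π) → IntegrableOn f (Ioo 0 π) := by
    intro f hf
    exact (hf.integrableOn_Icc).mono_set Ioo_subset_Icc_self
  have hTi : ∀ {f : ℝ → ℝ}, ContinuousOn f (Icc 0 π) → IntegrableOn (fun s => f s * T s)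
      (Ioo 0 π) := by
    intro f hf
    obtain ⟨C, hC⟩ := isCompact_Icc.exists_bound_of_continuousOn hQs'
    have hTint : IntegrableOn T (Ioo 0 π) := by
      refine (hint hQs').mono' hT ?_
      refine (ae_restrict_iff' measurableSet_Ioo).2 (Filter.Eventually.of_forall fun s hs => ?_)
      rw [Real.norm_eq_abs]
      exact hTb s hs
    obtain ⟨C', hC'⟩ := isCompact_Icc.exists_bound_of_continuousOn hf
    refine hTint.bdd_mul (c := C') ((hint hf).aestronglyMeasurable) ?_
    refine (ae_restrict_iff' measurableSet_Ioo).2 (Filter.Eventually.of_forall fun s hs => ?_)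
    exact hC' s (Ioo_subset_Icc_self hs)
  have hpos : ∀ s ∈ Ioo 0 π, 0 < sin s := fun s hs => sin_pos_of_mem_Ioo hs
  -- the sheet with the meridian direction
  have hb := rep_b (k := k) (volume.restrict (Ioo 0 π))
    (g := fun s => ((sin s, cos s), (cos s, -sin s)))
    (m := fun s => Q (sin s) * sin s ^ (k - 1)) (by fun_prop)
    (hint (by fun_prop)) ?_ ?_ ?_
  rotate_left
  · refine (ae_restrict_iff' measurableSet_Ioo).2 (Filter.Eventually.of_forall fun s hs => ?_)
    exact mul_nonneg (hQ0 _ (hpos s hs).le) (pow_nonneg (hpos s hs).le _)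
  · refine (ae_restrict_iff' measurableSet_Ioo).2 (Filter.Eventually.of_forall fun s hs => ?_)
    refine ⟨⟨hpos s hs, ?_⟩, ?_⟩
    · simp only
      linarith [sin_sq_add_cos_sq s]
    · simp only
      nlinarith [sin_sq_add_cos_sq s]
  · have h1 : IntegrableOn (fun s => Q (sin s) * sin s ^ (k - 2)) (Ioo 0 π) :=
      hint (by fun_prop)
    refine h1.congr_fun ?_ measurableSet_Ioo
    intro s hs
    have := hpos s hs
    simp only
    rw [show k - 1 = k - 2 + 1 by omega, pow_succ]
    field_simp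
  have hc := rep_c (k := k) (volume.restrict (Ioo 0 π))
    (g := fun s => (sin s, cos s))
    (m := fun s => (Q' (sin s) - T s) * sin s ^ k / k) (by fun_prop) ?_ ?_ ?_ ?_
  rotate_left
  · have h1 : IntegrableOn (fun s => Q' (sin s) * sin s ^ k / k) (Ioo 0 π) := hint (by fun_prop)
    have h2 : IntegrableOn (fun s => sin s ^ k / k * T s) (Ioo 0 π) := hTi (by fun_prop)
    refine (h1.sub h2).congr_fun ?_ measurableSet_Ioo
    intro s _
    simp only [Pi.sub_apply]
    ring
  · refine (ae_restrict_iff' measurableSet_Ioo).2 (Filter.Eventually.of_forall fun s hs => ?_)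
    have h1 := (le_abs_self (T s)).trans (hTb s hs)
    have h2 := hpos s hs
    have h3 : 0 ≤ Q' (sin s) - T s := by linarith
    positivity
  · refine (ae_restrict_iff' measurableSet_Ioo).2 (Filter.Eventually.of_forall fun s hs => ?_)
    refine ⟨hpos s hs, ?_⟩
    simp only
    linarith [sin_sq_add_cos_sq s]
  · have h1 : IntegrableOn (fun s => Q' (sin s) * sin s ^ (k - 1) / k) (Ioo 0 π) :=
      hint (by fun_prop)
    have h2 : IntegrableOn (fun s => sin s ^ (k - 1) / k * T s) (Ioo 0 π) := hTi (by fun_prop)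
    refine (h1.sub h2).congr_fun ?_ measurableSet_Ioo
    intro s hs
    have := hpos s hs
    simp only [Pi.sub_apply]
    conv_rhs => rw [show k = k - 1 + 1 by omega, pow_succ]
    rw [show ((k - 1 + 1 : ℕ) : ℝ) = k by rw [Nat.sub_add_cancel (by omega)]]
    field_simp
  refine (hb.add hc).congr ?_
  intro A B hA hB
  have hAc : Continuous fun s : ℝ => A (sin s, cos s) :=
    hA.continuous.comp (continuous_sin.prodMk continuous_cos)
  have hBc : Continuous fun s : ℝ => B (sin s, cos s) :=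
    hB.continuous.comp (continuous_sin.prodMk continuous_cos)
  have hAr : Continuous fun s : ℝ => dr A (sin s, cos s) :=
    (continuous_dr hA).comp (continuous_sin.prodMk continuous_cos)
  have hAz : Continuous fun s : ℝ => dz A (sin s, cos s) :=
    (continuous_dz hA).comp (continuous_sin.prodMk continuous_cos)
  have hBr : Continuous fun s : ℝ => dr B (sin s, cos s) :=
    (continuous_dr hB).comp (continuous_sin.prodMk continuous_cos)
  have hBz : Continuous fun s : ℝ => dz B (sin s, cos s) :=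
    (continuous_dz hB).comp (continuous_sin.prodMk continuous_cos)
  -- integration by parts
  set f : ℝ → ℝ := fun s => cos s * A (sin s, cos s) - sin s * B (sin s, cos s) with hf
  set f' : ℝ → ℝ := fun s => (cos s) ^ 2 * dr A (sin s, cos s) + cos s * (-sin s) *
    (dz A (sin s, cos s) + dr B (sin s, cos s)) + (-sin s) ^ 2 * dz B (sin s, cos s) -
      (sin s * A (sin s, cos s) + cos s * B (sin s, cos s)) with hf'
  set q : ℝ → ℝ := fun s => Q (sin s) * sin s ^ (k - 1) with hq
  set q' : ℝ → ℝ := fun s => Q' (sin s) * cos s * sin s ^ (k - 1) +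
    Q (sin s) * ((k - 1 : ℕ) * sin s ^ (k - 2) * cos s) with hq'
  have hfc : Continuous f := by
    rw [hf]
    fun_prop
  have hfc' : Continuous f' := by
    rw [hf']
    fun_prop
  have hqc : ContinuousOn q (Icc 0 π) := by
    rw [hq]
    fun_prop
  have hqc' : ContinuousOn q' (Icc 0 π) := by
    rw [hq']
    fun_prop
  have hqd : ∀ s ∈ Ioo 0 π, HasDerivAt q (q' s) s := by
    intro s hs
    have h1 : HasDerivAt (fun s => Q (sin s)) (Q' (sin s) * cos s) s :=
      (dQ _ (hpos s hs)).comp s (hasDerivAt_sin s)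
    have h2 : HasDerivAt (fun s => sin s ^ (k - 1)) ((k - 1 : ℕ) * sin s ^ (k - 1 - 1) * cos s) s :=
      (hasDerivAt_sin s).pow (k - 1)
    exact h1.mul h2
  have hparts : ∫ s in Ioo 0 π, (q' s * f s + q s * f' s) = 0 := by
    rw [← integral_Ioc_eq_integral_Ioo, ← intervalIntegral.integral_of_le pi_pos.le]
    rw [intervalIntegral.integral_eq_sub_of_hasDerivAt_of_le pi_pos.le
      (f := fun s => q s * f s) (hqc.mul hfc.continuousOn)
      (fun s hs => (hqd s hs).mul (hasDerivAt_tangential hA hB s))]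
    · have h1 : q π = 0 := by
        rw [hq]
        simp only [sin_pi]
        rw [zero_pow (by omega), mul_zero]
      have h2 : q 0 = 0 := by
        rw [hq]
        simp only [sin_zero]
        rw [zero_pow (by omega), mul_zero]
      rw [h1, h2]
      ring
    · rw [intervalIntegrable_iff_integrableOn_Ioc_of_le pi_pos.le]
      exact (((hqc'.mul hfc.continuousOn).add
        (hqc.mul hfc'.continuousOn)).integrableOn_Icc).mono_set Ioc_subset_Icc_self
  have e1 : ∀ s ∈ Ioo 0 π, Q (sin s) * sin s ^ (k - 1) * Lb k A B (sin s, cos s) (cos s, -sin s) =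
      (q' s * f s + q s * f' s) + ((Q' (sin s) * sin s ^ k + k * Q (sin s) * sin s ^ (k - 1)) *
          (sin s * A (sin s, cos s) + cos s * B (sin s, cos s)) -
        sin s ^ (k - 1) * Q' (sin s) * A (sin s, cos s)) := by
    intro s hs
    have hs0 := hpos s hs
    obtain ⟨l, rfl⟩ : ∃ l, k = l + 2 := ⟨k - 2, by omega⟩
    simp only [Lb, hf, hf', hq, hq', Nat.add_sub_cancel, show l + 2 - 1 = l + 1 by omega]
    have hc2 : cos s ^ 2 = 1 - sin s ^ 2 := by linarith [sin_sq_add_cos_sq s]
    have h1 : Q (sin s) * sin s ^ (l + 1) * (A (sin s, cos s) / sin s) =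
        Q (sin s) * sin s ^ l * A (sin s, cos s) := by
      rw [pow_succ]
      field_simp
    push_cast
    linear_combination (-(Q' (sin s) * sin s ^ (l + 1) * A (sin s, cos s) +
      (l + 1) * Q (sin s) * sin s ^ l * A (sin s, cos s))) * hc2 + (l + 1) * h1
  have e2 : ∀ s ∈ Ioo 0 π, (Q' (sin s) - T s) * sin s ^ k / k * Lc k A (sin s, cos s) =
      sin s ^ (k - 1) * Q' (sin s) * A (sin s, cos s) -
        sin s ^ (k - 1) * T s * A (sin s, cos s) := by
    intro s hs
    have hs0 := hpos s hs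
    simp only [Lc]
    obtain ⟨l, rfl⟩ : ∃ l, k = l + 1 := ⟨k - 1, by omega⟩
    rw [Nat.add_sub_cancel]
    field_simp
    ring
  have h1 : ∫ s in Ioo 0 π, Q (sin s) * sin s ^ (k - 1) *
      Lb k A B (sin s, cos s) (cos s, -sin s) = _ := setIntegral_congr_fun measurableSet_Ioo e1
  have h2 : ∫ s in Ioo 0 π, (Q' (sin s) - T s) * sin s ^ k / k * Lc k A (sin s, cos s) = _ :=
    setIntegral_congr_fun measurableSet_Ioo e2
  have i1 : IntegrableOn (fun s => q' s * f s + q s * f' s) (Ioo 0 π) :=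
    hint ((hqc'.mul hfc.continuousOn).add (hqc.mul hfc'.continuousOn))
  have i2 : ∀ a b : ℝ → ℝ, Continuous a → Continuous b → IntegrableOn (fun s =>
      (Q' (sin s) * sin s ^ k + k * Q (sin s) * sin s ^ (k - 1)) * (sin s * a s + cos s * b s))
      (Ioo 0 π) := fun a b ha hb => hint (by fun_prop)
  have i3 : ∀ a : ℝ → ℝ, Continuous a → IntegrableOn (fun s => sin s ^ (k - 1) * Q' (sin s) * a s)
      (Ioo 0 π) := fun a ha => hint (by fun_prop)
  have i4 : ∀ a : ℝ → ℝ, Continuous a → IntegrableOn (fun s => sin s ^ (k - 1) * T s * a s)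
      (Ioo 0 π) := by
    intro a ha
    have h1 : IntegrableOn (fun s => sin s ^ (k - 1) * a s * T s) (Ioo 0 π) :=
      hTi (by fun_prop)
    refine h1.congr_fun ?_ measurableSet_Ioo
    intro s _
    simp only
    ring
  have i2' := i2 _ _ hAc hBc
  have i3' := i3 _ hAc
  have i4' := i4 _ hAc
  set X : ℝ → ℝ := fun s => (Q' (sin s) * sin s ^ k + k * Q (sin s) * sin s ^ (k - 1)) *
    (sin s * A (sin s, cos s) + cos s * B (sin s, cos s)) with hX
  set Y : ℝ → ℝ := fun s => sin s ^ (k - 1) * Q' (sin s) * A (sin s, cos s) with hY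
  set Z : ℝ → ℝ := fun s => sin s ^ (k - 1) * T s * A (sin s, cos s) with hZ
  have g1 : ∫ s in Ioo 0 π, ((q' s * f s + q s * f' s) + (X s - Y s)) =
      (∫ s in Ioo 0 π, (q' s * f s + q s * f' s)) + ∫ s in Ioo 0 π, (X s - Y s) :=
    integral_add i1 (i2'.sub i3')
  have g2 : ∫ s in Ioo 0 π, (X s - Y s) = (∫ s in Ioo 0 π, X s) - ∫ s in Ioo 0 π, Y s :=
    integral_sub i2' i3'
  have g3 : ∫ s in Ioo 0 π, (Y s - Z s) = (∫ s in Ioo 0 π, Y s) - ∫ s in Ioo 0 π, Z s :=
    integral_sub i3' i4'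
  have g4 : ∫ s in Ioo 0 π, (X s - Z s) = (∫ s in Ioo 0 π, X s) - ∫ s in Ioo 0 π, Z s :=
    integral_sub i2' i4'
  refine (congrArg₂ (· + ·) h1 h2).trans ?_
  change (∫ s in Ioo 0 π, ((q' s * f s + q s * f' s) + (X s - Y s))) +
    ∫ s in Ioo 0 π, (Y s - Z s) = ∫ s in Ioo 0 π, (X s - Z s)
  rw [g1, g2, g3, g4, hparts]
  ring

end Pool.Agent.Helper19.LB
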